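import Pool.Agent.H15.G.R_seed8.TH469.SX.Slab
import Pool.Agent.H15.G.R_seed8.TH387.SH.Tr
import Pool.Agent.H15.G.R_seed8.TH603.EL.Fin

set_option autoImplicit false

/-!
# Four and nine points with nearly equal multiplicities: emptiness or independence in every degree

Base cases for the passage from `N` to `4 N` points.
-/

namespace Pool.Agent.TH387.BS

open Finset Pool.Agent.TH176.Nag Pool.Agent.TH603.Sur Pool.Agent.TH469.SX Pool.Agent.TH387.SH

/-- the sums of the truncated differences -/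
theorem sum_sub_near {N : ℕ} {w : Fin N → ℕ} {m : ℕ} (hw : ∀ i, w i = m ∨ w i = m + 1) {k : ℕ}
    (hk : k ≤ m) : ∑ i, (w i - k) + N * k = ∑ i, w i := by
  have : N * k = ∑ _i : Fin N, k := by simp
  rw [this, ← sum_add_distrib]
  refine sum_congr rfl fun i _ => ?_
  rcases hw i with h | h <;> omega

theorem sum_le_near {N : ℕ} {w : Fin N → ℕ} {m : ℕ} (hw : ∀ i, w i = m ∨ w i = m + 1) :
    ∑ i, w i ≤ N * (m + 1) := by
  have : N * (m + 1) = ∑ _i : Fin N, (m + 1) := by simp
  rw [this]
  refine sum_le_sum fun i _ => ?_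
  rcases hw i with h | h <;> omega

/-- **Four points** -/
theorem dich4 {w : Fin 4 → ℕ} {m : ℕ} (hw : ∀ i, w i = m ∨ w i = m + 1) (d : ℕ) :
    Emp w (TZ d) ∨ Sur w (TZ d) := by
  have hle := sum_le_near hw
  rcases le_total (2 * d + 1) (∑ i, w i) with hd | hd
  · left
    refine Emp_slabs 1 2 1 0 (by norm_num) fun k B hB => ?_
    have hsub : B ⊆ Icc (2 * (k : ℤ)) (2 * d - 2 * k) := by
      intro c hc
      obtain ⟨s, T, hT, ⟨h1, h2, h3⟩, ⟨h4, h5, h6⟩⟩ := hB c hc
      simp only at h1 h2 h3 h4 h5 h6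
      rw [mem_Icc]
      constructor <;> omega
    have hc := card_le_card hsub
    rw [Int.card_Icc] at hc
    rcases le_or_gt k m with hk | hk
    · have := sum_sub_near hw hk
      omega
    · omega
  · right
    refine Sur_slabs' 1 2 1 0 (by norm_num) fun k hk => ?_
    have hkm : k ≤ m := by
      obtain ⟨i, hi⟩ := hk
      rcases hw i with h | h <;> omega
    have hS := sum_sub_near hw hkm
    refine ⟨Icc (2 * (k : ℤ)) (2 * d - 2 * k), ?_, ?_⟩
    · rw [Int.card_Icc]
      omega
    · intro c hc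
      rw [mem_Icc] at hc
      refine ⟨max 0 (c - d), fun s h1 h2 => ⟨?_, ?_, ?_⟩⟩
      · simp only
        omega
      · simp only
        omega
      · simp only
        omega

/-- **Nine points** -/
theorem dich9 {w : Fin 9 → ℕ} {m : ℕ} (hw : ∀ i, w i = m ∨ w i = m + 1) (d : ℕ) :
    Emp w (TZ d) ∨ Sur w (TZ d) := by
  rcases lt_or_ge (3 * d) (∑ i, w i) with hd | hd
  · left
    refine Pool.Agent.TH603.EL.Emp_plane (by simp) ?_
    have h9 : √((Fintype.card (Fin 9) : ℕ) : ℝ) = 3 := by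
      rw [Fintype.card_fin, show ((9 : ℕ) : ℝ) = 3 ^ 2 by norm_num]
      exact Real.sqrt_sq (by norm_num)
    rw [h9]
    have : ((3 * d : ℕ) : ℝ) < ((∑ i, w i : ℕ) : ℝ) := by exact_mod_cast hd
    push_cast at this
    exact this
  · right
    have hirr : Irrational (√2 - 1) := by
      have := irrational_sqrt_two.sub_intCast 1
      simpa using this
    have hs1 : 1 < √(2 : ℝ) := by
      rw [Real.lt_sqrt (by norm_num)]; norm_num
    have hs2 : √(2 : ℝ) < 2 := by
      rw [Real.sqrt_lt' (by norm_num)]; norm_num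
    obtain ⟨τ, hτ⟩ : ∃ τ : ℝ, τ = √2 - 1 := ⟨_, rfl⟩
    rw [← hτ] at hirr
    have hτ0 : 0 < τ := by rw [hτ]; linarith
    have hτ1 : τ < 1 := by rw [hτ]; linarith
    refine Sur_key hτ0 hτ1 hirr ?_
    refine Sur_slabs' 1 0 1 0 (by norm_num) fun k hk => ?_
    have hkm : k ≤ m := by
      obtain ⟨i, hi⟩ := hk
      rcases hw i with h | h <;> omega
    have hS := sum_sub_near hw hkm
    have hkd : 3 * k ≤ d := by omega
    have hkdR : (0 : ℝ) ≤ d - 3 * k := by
      have : ((3 * k : ℕ) : ℝ) ≤ d := by exact_mod_cast hkd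
      push_cast at this
      linarith
    refine ⟨Icc (-⌊((d : ℝ) - 3 * k) * (1 + τ)⌋) ⌊((d : ℝ) - 3 * k) * (2 - τ)⌋, ?_, ?_⟩
    · rw [Int.card_Icc]
      have e : ((d : ℝ) - 3 * k) * (2 - τ) =
          -(((d : ℝ) - 3 * k) * (1 + τ)) + ((3 * ((d : ℤ) - 3 * k) : ℤ) : ℝ) := by
        push_cast; ring
      rw [e, Int.floor_add_intCast, Int.floor_neg]
      have h1 := Int.ceil_le_floor_add_one (((d : ℝ) - 3 * k) * (1 + τ))
      omega
    · intro c hc
      rw [mem_Icc] at hc
      have h1 : -(((d : ℝ) - 3 * k) * (1 + τ)) ≤ c := by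
        have h2 := Int.floor_le (((d : ℝ) - 3 * k) * (1 + τ))
        have h3 : ((-⌊((d : ℝ) - 3 * k) * (1 + τ)⌋ : ℤ) : ℝ) ≤ c := by exact_mod_cast hc.1
        push_cast at h3
        linarith
      have h2 : (c : ℝ) ≤ ((d : ℝ) - 3 * k) * (2 - τ) := Int.le_floor.1 hc.2
      refine ⟨0, fun s h3 h4 => ⟨?_, ?_, ?_⟩⟩
      · simp only
        omega
      · simp only
        push_cast
        have h5 : (s : ℝ) ≤ k := by
          have : s ≤ k := by omega
          exact_mod_cast this
        nlinarith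
      · simp only
        push_cast
        have h5 : (s : ℝ) ≤ k := by
          have : s ≤ k := by omega
          exact_mod_cast this
        nlinarith

end Pool.Agent.TH387.BS
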